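import Pool.Agent.H98.CP.St
import Pool.Agent.H88.CT.Trans

set_option autoImplicit false
set_option linter.unusedSectionVars false

/-! The blocks of the extremal function on the group; restriction of polynomials. -/

open Finset ComplexConjugate UnitAddTorus
open H95.CP (GG ch ch2 co2 fa gp gp2 Band)
open Pool.Agent.H75
open Pool.Agent.H98.CP

namespace Pool.Agent.H88.CP

noncomputable section

lemma tpt_eq {M : ℕ} (x : G M) : tpt x = H88.CT.pt x := by
  unfold tpt H88.CT.pt H88.CT.rpt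
  funext i
  fin_cases i
  · simp [LL]
  · simp [LL]

lemma bl_congr {L : ℕ} [NeZero L] (K : ℕ) (ε ε' : ℕ → Finset (MT.YK K)) (b : ℕ)
    (h : ε b = ε' b) (x : GG L) : H88.CT.bl L K ε b x = H88.CT.bl L K ε' b x := by
  unfold H88.CT.bl
  have h1 : MT.aa K ε b = MT.aa K ε' b := by
    funext k
    unfold MT.aa
    rw [h]
  rw [h1]

lemma dvd_LL (K : ℕ) : 8 ^ (K + 2) ∣ LL (K + 2) := pow_dvd_pow 8 (by omega)

/-- index of a coarse grid point in the finer grid -/
def fin8 {A p : ℕ} (hA : A = 8 ^ p) (i : Fin A) : Fin (8 ^ (p + 1)) :=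
  ⟨8 * i.val, by
    have := i.2
    rw [pow_succ]
    omega⟩

lemma fin8_inj {A p : ℕ} (hA : A = 8 ^ p) : Function.Injective (fin8 hA) := by
  intro i j h
  unfold fin8 at h
  rw [Fin.mk.injEq] at h
  ext
  omega

lemma gp_fin8 {L A p : ℕ} (hA : A = 8 ^ p) (hL : 8 ^ (p + 1) ∣ L) (i : Fin A) :
    (gp (8 ^ (p + 1)) (fin8 hA i) : ZMod L) = gp A i := by
  unfold H95.CP.gp fin8
  subst hA
  obtain ⟨c, hc⟩ := hL
  have h1 : L / 8 ^ (p + 1) = c := by
    rw [hc]
    exact Nat.mul_div_cancel_left c (by positivity)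
  have h2 : L / 8 ^ p = 8 * c := by
    rw [hc, pow_succ, mul_assoc]
    exact Nat.mul_div_cancel_left (8 * c) (by positivity)
  rw [h1, h2]
  congr 1
  simp only
  ring

lemma two_Zf (b : ℕ) : 2 * MT.Zf b = 8 ^ (b + 1) := by
  unfold MT.Zf
  ring

lemma two_Zs (K b : ℕ) : 2 * MT.Zs K b = 8 ^ (K - b + 1) := by
  unfold MT.Zs
  ring

/-- the index of the grid -/
def idx (K b : ℕ) (i : Fin (8 ^ (K + 2))) : Gr (b + 1) (K + 2 - b + 1) :=
  if h : 1 ≤ b ∧ b - 1 ≤ K then
    (fin8 (by rw [two_Zf, Nat.sub_add_cancel h.1]) (MT.eb K (b - 1) h.2 i).1,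
      fin8 (by rw [two_Zs]; congr 1; omega) (MT.eb K (b - 1) h.2 i).2)
  else (⟨0, by positivity⟩, ⟨0, by positivity⟩)

lemma idx_inj (K b : ℕ) (h1 : 1 ≤ b) (h2 : b < K + 2) : Function.Injective (idx K b) := by
  intro i j hij
  unfold idx at hij
  have h : 1 ≤ b ∧ b - 1 ≤ K := ⟨h1, by omega⟩
  rw [dif_pos h, dif_pos h, Prod.mk.injEq] at hij
  have e1 := fin8_inj _ hij.1
  have e2 := fin8_inj _ hij.2
  exact (MT.eb K (b - 1) h.2).injective (Prod.ext e1 e2)

lemma pt_idx (K b : ℕ) (h1 : 1 ≤ b) (h2 : b - 1 ≤ K) (i : Fin (8 ^ (K + 2))) :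
    (Pool.Agent.H98.CP.pt (b + 1) (K + 2 - b + 1) (idx K b i) : G (K + 2))
      = H88.CT.bpt (LL (K + 2)) K (b - 1) h2 i := by
  unfold Pool.Agent.H98.CP.pt H88.CT.bpt H95.CP.gp2 idx
  rw [dif_pos ⟨h1, h2⟩]
  refine Prod.ext ?_ ?_
  · exact gp_fin8 (by rw [two_Zf, Nat.sub_add_cancel h1]) (pow_dvd_pow 8 (by omega)) _
  · exact gp_fin8 (by rw [two_Zs]; congr 1; omega) (pow_dvd_pow 8 (by omega)) _

theorem stTB : StTB := by
  intro K hK
  have hL := dvd_LL K
  refine ⟨{ t := fun b s x => H88.CT.bl (LL (K + 2)) K (fun _ => s) (b - 1) x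
            spec := ?_
            idx := idx K
            inj := idx_inj K
            val := ?_ }, ?_⟩
  · intro b s k h1 h2 hk
    have h3 := H88.CT.co2_bl_spec hL (fun _ => s) (b - 1) (by omega) k hk
    have e1 : b - 1 + 1 = b := by omega
    have e2 : K - (b - 1) + 1 = K + 2 - b := by omega
    rw [e1, e2] at h3
    unfold DD
    classical
    rw [mem_filter]
    exact ⟨mem_univ _, H95.CP.band_zero h3.1.1 h3.1.2.le, H95.CP.band_zero h3.2.1 h3.2.2.le⟩
  · intro b s i h1 h2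
    rw [pt_idx K b h1 (by omega) i, H88.CT.bl_bpt hL (fun _ => s) (b - 1) (by omega) i]
    rfl
  · intro ε x
    rw [tpt_eq, H88.CT.TT_pt, Complex.ofReal_re]
    unfold H88.CT.Tx TB.T
    rw [Finset.sum_Ico_eq_sum_range]
    refine Finset.sum_congr (by congr 1) (fun b hb => ?_)
    have e1 : 1 + b - 1 = b := by omega
    simp only [e1]
    refine bl_congr K _ _ b ?_ x
    rw [if_neg (by omega)]

theorem stRes : StRes := by
  classical
  intro M Lf d
  have hre : ∀ x : G M, (((MT.tp Lf d (tpt x)).re : ℝ) : ℂ)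
      = 1 / 2 * MT.tp Lf d (H88.CT.pt x) + 1 / 2 * conj (MT.tp Lf d (H88.CT.pt x)) := by
    intro x
    rw [tpt_eq]
    have h1 := Complex.add_conj (MT.tp Lf d (H88.CT.pt x))
    rw [Complex.ofReal_mul, Complex.ofReal_ofNat] at h1
    linear_combination (-1 / 2) * h1
  refine ⟨{ g := fun x => (MT.tp Lf d (tpt x)).re
            Lam := Lf.image (H88.CT.ck (LL M)) ∪ Lf.image (fun k => -H88.CT.ck (LL M) k)
            spec := ?_ }, ?_, fun x => rfl⟩
  · intro k hk
    rw [mem_union, not_or, mem_image, mem_image] at hk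
    have h1 : cx (fun x : G M => (MT.tp Lf d (tpt x)).re)
        = fun x => 1 / 2 * MT.tp Lf d (H88.CT.pt x) + 1 / 2 * conj (MT.tp Lf d (H88.CT.pt x)) := by
      funext x
      exact hre x
    rw [h1, H95.CP.co2_add, H95.CP.co2_smul, H95.CP.co2_smul, H95.CP.co2_neg_conj,
      H88.CT.co2_tp, H88.CT.co2_tp]
    rw [Finset.sum_eq_zero, Finset.sum_eq_zero]
    · simp
    · intro l hl
      rw [if_neg]
      intro h
      exact hk.2 ⟨l, hl, by rw [h, neg_neg]⟩
    · intro l hl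
      rw [if_neg]
      intro h
      exact hk.1 ⟨l, hl, h⟩
  · refine (Finset.card_union_le _ _).trans ?_
    have h1 : (Lf.image (H88.CT.ck (LL M))).card ≤ Lf.card := Finset.card_image_le
    have h2 : (Lf.image (fun k => -H88.CT.ck (LL M) k)).card ≤ Lf.card := Finset.card_image_le
    omega

end

end Pool.Agent.H88.CP
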