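import Pool.Agent.H98.CP.St
import Pool.Agent.H75.MT.Construct

set_option autoImplicit false
set_option linter.unusedSectionVars false

/-! The lower bound in dimension two from the counting statement. -/

open Finset ComplexConjugate MeasureTheory UnitAddTorus Filter

open scoped ENNReal

open Pool.Agent.H75.MT

namespace Pool.Agent.H88.CP

noncomputable section

local instance : MeasureSpace UnitAddCircle := ⟨AddCircle.haarAddCircle⟩

local instance : Measure.IsAddHaarMeasure (volume : Measure UnitAddCircle) :=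
  inferInstanceAs (Measure.IsAddHaarMeasure AddCircle.haarAddCircle)

local instance : IsProbabilityMeasure (volume : Measure UnitAddCircle) :=
  inferInstanceAs (IsProbabilityMeasure AddCircle.haarAddCircle)

open Classical in
/-- a sign sequence outside of a small set with a good preimage -/
lemma exists_good2 (r : ℝ) (hr : 0 < r) (K n : ℕ) (hn1 : 1 ≤ n) (m : ℕ)
    (Bad : Finset (Fin n → Finset (YK K)))
    (hBad : 4 * #Bad ≤ (2 ^ Fintype.card (YK K)) ^ n) :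
    ∃ ε : Fin n → Finset (YK K), ε ∉ Bad ∧
      ∫ x : T2, |(TT K n (pa r K (ext ε)) x).re| ^ m
        ≤ 2 * (4 * m.factorial * (Real.sqrt ((n : ℝ) * (4 ^ r) ^ 2)) ^ m) := by
  set C : ℝ := 4 * m.factorial * (Real.sqrt ((n : ℝ) * (4 ^ r) ^ 2)) ^ m with hC
  have hn0 : (0 : ℝ) < n := by exact_mod_cast hn1
  have hCpos : 0 < C := by positivity
  have hint : ∀ ε : Fin n → Finset (YK K),
      Integrable (fun x : T2 => |(TT K n (pa r K (ext ε)) x).re| ^ m) := by
    intro ε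
    exact rint _ (by fun_prop)
  have hsum : ∑ ε : Fin n → Finset (YK K), ∫ x : T2, |(TT K n (pa r K (ext ε)) x).re| ^ m
      ≤ (2 ^ Fintype.card (YK K)) ^ n * C := by
    rw [← integral_finsetSum _ (fun ε _ => hint ε)]
    have h1 : ∫ x : T2, ∑ ε : Fin n → Finset (YK K), |(TT K n (pa r K (ext ε)) x).re| ^ m
        ≤ ∫ _x : T2, (2 ^ Fintype.card (YK K)) ^ n * C := by
      refine integral_mono (integrable_finsetSum _ (fun ε _ => hint ε)) (integrable_const _)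
        (fun x => ?_)
      exact phi_moment r hr K n hn1 x m
    refine h1.trans (le_of_eq ?_)
    simp
  by_contra hcon
  push Not at hcon
  have h2 : ∀ ε ∈ (univ : Finset (Fin n → Finset (YK K))) \ Bad,
      2 * C ≤ ∫ x : T2, |(TT K n (pa r K (ext ε)) x).re| ^ m := by
    intro ε hε
    exact (hcon ε (Finset.mem_sdiff.1 hε).2).le
  have h3 := Finset.sum_le_sum h2
  rw [Finset.sum_const, nsmul_eq_mul] at h3
  have h4 : ∑ ε ∈ (univ : Finset (Fin n → Finset (YK K))) \ Bad,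
      ∫ x : T2, |(TT K n (pa r K (ext ε)) x).re| ^ m
      ≤ ∑ ε : Fin n → Finset (YK K), ∫ x : T2, |(TT K n (pa r K (ext ε)) x).re| ^ m :=
    Finset.sum_le_sum_of_subset_of_nonneg (Finset.subset_univ _)
      (fun ε _ _ => integral_nonneg (fun x => by positivity))
  have h5 := h3.trans (h4.trans hsum)
  have hTot : #(univ : Finset (Fin n → Finset (YK K))) = (2 ^ Fintype.card (YK K)) ^ n := by
    rw [Finset.card_univ, Fintype.card_fun, Fintype.card_finset, Fintype.card_fin (n := n)]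
  have h6 : #((univ : Finset (Fin n → Finset (YK K))) \ Bad)
      = (2 ^ Fintype.card (YK K)) ^ n - #Bad := by
    rw [Finset.card_sdiff_of_subset (Finset.subset_univ _), hTot]
  set T := (2 ^ Fintype.card (YK K)) ^ n with hT
  have hTpos : 0 < T := by positivity
  have h8 : (#((univ : Finset (Fin n → Finset (YK K))) \ Bad) : ℝ) = (T : ℝ) - #Bad := by
    rw [h6, Nat.cast_sub (by omega)]
  rw [h8] at h5
  have h9 : (4 : ℝ) * #Bad ≤ T := by exact_mod_cast hBad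
  have h10 : (0 : ℝ) < T := by exact_mod_cast hTpos
  have h11 : ((2 ^ Fintype.card (YK K) : ℝ)) ^ n = (T : ℝ) := by
    rw [hT]
    push_cast
    rfl
  rw [h11] at h5
  nlinarith [mul_pos h10 hCpos]

/-- the extremal function for given parameters -/
theorem construct2 (r : ℝ) (hr : 0 < r) (m : ℕ) (hm : 1 ≤ m) (K : ℕ) (V W : ℝ)
    (Bad : Finset (Fin (K + 1) → Finset (YK K)))
    (hBad : 4 * #Bad ≤ (2 ^ Fintype.card (YK K)) ^ (K + 1))
    (hgood : ∀ ε, ε ∉ Bad → ∀ (L : Finset (Fin 2 → ℤ)) (d : (Fin 2 → ℤ) → ℂ), (#L : ℝ) ≤ V →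
      ¬ ∀ x, ‖(TT K (K + 1) (aa K (ext ε)) - tp L d) x‖ ≤ W) :
    ∃ F P : C(T2, ℂ), (∀ x, (F x).im = 0) ∧ (∀ x, (P x).im = 0) ∧
      (∀ l, co F l = (∏ i, cr r (l i)) * co P l) ∧
      eLpNorm (fun x : T2 => (P x).re) (m : ℝ≥0∞) volume ≤ 1 ∧
      ∀ (L : Finset (Fin 2 → ℤ)) (d : (Fin 2 → ℤ) → ℂ) (U : ℝ), (#L : ℝ) ≤ V →
        (∀ x, ‖F x - ∑ k ∈ L, d k * mFourier k x‖ ≤ U) →
        (8 ^ (K + 2) : ℝ) ^ (-r) / DD r m (K + 1) * W ≤ U := by
  obtain ⟨ε, hε, hint⟩ := exists_good2 r hr K (K + 1) (by omega) m Bad hBad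
  have hnorm := norm_le_one r K (K + 1) m (by omega) hm (pa r K (ext ε)) hint
  clear hint
  have hD := DD_pos r m (K + 1) (by omega)
  set D := DD r m (K + 1) with hDdef
  set α : ℝ := (8 ^ (K + 2) : ℝ) ^ (-r) / D with hα
  have hαpos : 0 < α := by positivity
  refine ⟨(α : ℂ) • TT K (K + 1) (aa K (ext ε)), ((1 / D : ℝ) : ℂ) • TT K (K + 1) (pa r K (ext ε)),
    ?_, ?_, ?_, ?_, ?_⟩
  · intro x
    rw [ContinuousMap.smul_apply, smul_eq_mul, Complex.im_ofReal_mul, TT_real, mul_zero]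
  · intro x
    rw [ContinuousMap.smul_apply, smul_eq_mul, Complex.im_ofReal_mul, TT_real, mul_zero]
  · intro l
    rw [co_smul, co_smul]
    have h1 := member r K (K + 1) (ext ε) l
    have h2 : (α : ℂ) = ((1 / D : ℝ) : ℂ) * (((8 ^ (K + 2) : ℝ) ^ (-r) : ℝ) : ℂ) := by
      rw [← Complex.ofReal_mul]
      congr 1
      rw [hα]
      ring
    rw [h2, mul_assoc, h1]
    ring
  · have h1 : (fun x : T2 => ((((1 / D : ℝ) : ℂ) • TT K (K + 1) (pa r K (ext ε))) x).re)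
        = fun x : T2 => (TT K (K + 1) (pa r K (ext ε)) x).re / D := by
      funext x
      rw [ContinuousMap.smul_apply, smul_eq_mul, Complex.re_ofReal_mul]
      ring
    rw [h1]
    exact hnorm
  · intro L d U hL hU
    have h1 : ∀ x, ‖(TT K (K + 1) (aa K (ext ε)) - tp L (fun k => (α : ℂ)⁻¹ * d k)) x‖ ≤ U / α := by
      intro x
      rw [le_div_iff₀ hαpos]
      have h2 := hU x
      have h3 : ((α : ℂ) • TT K (K + 1) (aa K (ext ε))) x - ∑ k ∈ L, d k * mFourier k x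
          = (α : ℂ) * (TT K (K + 1) (aa K (ext ε)) - tp L (fun k => (α : ℂ)⁻¹ * d k)) x := by
        have hα' : (α : ℂ) ≠ 0 := by exact_mod_cast hαpos.ne'
        rw [ContinuousMap.smul_apply, smul_eq_mul, ContinuousMap.sub_apply, tp_apply, mul_sub,
          Finset.mul_sum]
        congr 1
        refine Finset.sum_congr rfl (fun k _ => ?_)
        field_simp
      rw [h3, norm_mul, Complex.norm_real, Real.norm_eq_abs, abs_of_pos hαpos] at h2
      rw [mul_comm]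
      exact h2
    by_contra hcon
    push Not at hcon
    refine hgood ε hε L (fun k => (α : ℂ)⁻¹ * d k) hL (fun x => (h1 x).trans ?_)
    rw [div_le_iff₀ hαpos]
    linarith

/-- the number of blocks for a given number of terms -/
lemma params2 (c : ℝ) (hc : 0 < c) (K0 : ℕ) : ∀ᶠ m : ℕ in atTop, ∃ K : ℕ, K0 ≤ K ∧ 2 ≤ K ∧
    (m : ℝ) ≤ c * K * 8 ^ K ∧ c * K * 8 ^ K ≤ 16 * m := by
  classical
  set K1 := max K0 2 with hK1
  filter_upwards [eventually_gt_atTop (Nat.ceil (c * K1 * 8 ^ K1))] with m hm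
  have hm' : c * K1 * 8 ^ K1 < m := lt_of_le_of_lt (Nat.le_ceil _) (by exact_mod_cast hm)
  have hmono : ∀ k l : ℕ, k ≤ l → c * k * 8 ^ k ≤ c * l * 8 ^ l := by
    intro k l hkl
    have h1 : (k : ℝ) ≤ l := by exact_mod_cast hkl
    have h2 : (8 : ℝ) ^ k ≤ 8 ^ l := pow_le_pow_right₀ (by norm_num) hkl
    exact mul_le_mul (mul_le_mul_of_nonneg_left h1 hc.le) h2 (by positivity) (by positivity)
  have hex : ∃ K : ℕ, (m : ℝ) ≤ c * K * 8 ^ K := by
    obtain ⟨K, hK⟩ := exists_nat_ge ((m : ℝ) / c)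
    refine ⟨K, ?_⟩
    rw [div_le_iff₀ hc] at hK
    have h1 : (1 : ℝ) ≤ 8 ^ K := one_le_pow₀ (by norm_num)
    have h2 : (0 : ℝ) ≤ c * K := by positivity
    nlinarith
  set K := Nat.find hex with hKdef
  have hspec : (m : ℝ) ≤ c * K * 8 ^ K := Nat.find_spec hex
  have hK1K : K1 < K := by
    by_contra hcon
    push Not at hcon
    have := hmono K K1 hcon
    linarith
  have hmin : ¬ (m : ℝ) ≤ c * ((K - 1 : ℕ) : ℝ) * 8 ^ (K - 1) :=
    Nat.find_min hex (by omega)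
  push Not at hmin
  refine ⟨K, ?_, ?_, hspec, ?_⟩
  · have := le_max_left K0 2
    omega
  · have := le_max_right K0 2
    omega
  · have hK2 : 2 ≤ K := by
      have := le_max_right K0 2
      omega
    have e1 : (8 : ℝ) ^ K = 8 ^ (K - 1) * 8 := by
      rw [← pow_succ]
      congr 1
      omega
    have e2 : ((K - 1 : ℕ) : ℝ) = K - 1 := by
      rw [Nat.cast_sub (by omega), Nat.cast_one]
    rw [e2] at hmin
    rw [e1]
    have h3 : (2 : ℝ) ≤ K := by exact_mod_cast hK2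
    have h4 : (K : ℝ) ≤ 2 * (K - 1) := by linarith
    have h5 : (0 : ℝ) < 8 ^ (K - 1) := by positivity
    have h6 : c * (K : ℝ) * (8 ^ (K - 1) * 8) ≤ c * (2 * (K - 1)) * (8 ^ (K - 1) * 8) :=
      mul_le_mul_of_nonneg_right (mul_le_mul_of_nonneg_left h4 hc.le) (by positivity)
    have h7 : c * (2 * ((K : ℝ) - 1)) * (8 ^ (K - 1) * 8) = 16 * (c * (K - 1) * 8 ^ (K - 1)) := by
      ring
    linarith

/-- comparison of the two sides -/
lemma compare2 (r c : ℝ) (hr : 0 < r) (hc : 0 < c) (hc1 : c ≤ 1) (mp m K : ℕ) (hK : 2 ≤ K)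
    (hm0 : 0 < Real.log m) (h3 : (m : ℝ) ≤ c * K * 8 ^ K) (h4 : c * K * 8 ^ K ≤ 16 * m) :
    (64 : ℝ) ^ (-r) * c / (16 * mp.factorial * 4 ^ r * ((16 / c) ^ r * 4 ^ (r + 1 / 2)))
      * (m : ℝ) ^ (-r) * (Real.log m) ^ (r + 1 / 2)
    ≤ (8 ^ (K + 2) : ℝ) ^ (-r) / DD r mp (K + 1) * (c * K) := by
  have hK' : (2 : ℝ) ≤ K := by exact_mod_cast hK
  set k : ℝ := (K : ℝ) with hk
  have hk0 : 0 < k := by linarith
  have hP : (0 : ℝ) < 8 ^ K := by positivity
  have hmpos : (0 : ℝ) < m := by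
    have : 0 < c * k * 8 ^ K := by positivity
    linarith
  have hl2b := Real.log_two_lt_d9
  have hl2a := Real.log_two_gt_d9
  have hlog8 : Real.log ((8 : ℝ) ^ K) = k * (3 * Real.log 2) := by
    rw [Real.log_pow, show (8 : ℝ) = 2 ^ 3 by norm_num, Real.log_pow]
    norm_num
    rfl
  have hlogm : Real.log m ≤ 4 * k := by
    have h5 : (m : ℝ) ≤ 8 ^ K * k := by
      have : c * k * 8 ^ K ≤ 1 * k * 8 ^ K := by gcongr
      linarith
    have h6 := Real.log_le_log hmpos h5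
    rw [Real.log_mul hP.ne' (by linarith), hlog8] at h6
    have h7 : Real.log k ≤ k := by
      have := Real.log_le_sub_one_of_pos hk0
      linarith
    nlinarith
  have hmr : (m : ℝ) ^ (-r) ≤ (8 ^ K : ℝ) ^ (-r) * k ^ (-r) * (16 / c) ^ r := by
    have h5 : (8 : ℝ) ^ K * k / (16 / c) ≤ m := by
      rw [div_le_iff₀ (by positivity)]
      have : (m : ℝ) * (16 / c) = (16 * m) / c := by ring
      rw [this, le_div_iff₀ hc]
      linarith
    have h6 := Real.rpow_le_rpow_of_nonpos (z := -r) (show 0 < (8 : ℝ) ^ K * k / (16 / c) by positivity)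
      h5 (by linarith)
    refine h6.trans (le_of_eq ?_)
    rw [Real.div_rpow (by positivity) (by positivity), Real.mul_rpow hP.le hk0.le,
      Real.rpow_neg (show (0 : ℝ) ≤ 16 / c by positivity), div_inv_eq_mul]
  have hlr : (Real.log m) ^ (r + 1 / 2) ≤ 4 ^ (r + 1 / 2) * (k ^ r * Real.sqrt k) := by
    have h5 := Real.rpow_le_rpow hm0.le hlogm (show 0 ≤ r + 1 / 2 by linarith)
    refine h5.trans (le_of_eq ?_)
    rw [Real.mul_rpow (by norm_num) hk0.le, Real.rpow_add hk0 r (1 / 2), Real.sqrt_eq_rpow]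
  set A : ℝ := (16 / c) ^ r * 4 ^ (r + 1 / 2) with hA
  have hA0 : 0 < A := by positivity
  have hprod : (m : ℝ) ^ (-r) * (Real.log m) ^ (r + 1 / 2)
      ≤ (8 ^ K : ℝ) ^ (-r) * Real.sqrt k * A := by
    have h5 : (m : ℝ) ^ (-r) * (Real.log m) ^ (r + 1 / 2)
        ≤ ((8 ^ K : ℝ) ^ (-r) * k ^ (-r) * (16 / c) ^ r)
          * (4 ^ (r + 1 / 2) * (k ^ r * Real.sqrt k)) :=
      mul_le_mul hmr hlr (by positivity) (by positivity)
    refine h5.trans (le_of_eq ?_)
    have h6 : k ^ (-r) * k ^ r = 1 := by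
      rw [← Real.rpow_add hk0]
      simp
    rw [hA]
    linear_combination ((8 ^ K : ℝ) ^ (-r) * (16 / c) ^ r * 4 ^ (r + 1 / 2) * Real.sqrt k) * h6
  have hfac : (0 : ℝ) < mp.factorial := by exact_mod_cast Nat.factorial_pos mp
  have hP2 : 0 < (8 ^ K : ℝ) ^ (-r) := Real.rpow_pos_of_pos hP _
  have h64 : (0 : ℝ) < 64 ^ (-r) := Real.rpow_pos_of_pos (by norm_num) _
  have h4r : (0 : ℝ) < 4 ^ r := Real.rpow_pos_of_pos (by norm_num) _
  have hsk : 0 < Real.sqrt k := Real.sqrt_pos.2 hk0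
  have hsn : 0 < Real.sqrt (k + 1) := Real.sqrt_pos.2 (by linarith)
  have hsq : Real.sqrt (k + 1) ≤ 2 * Real.sqrt k := by
    have h5 : (2 : ℝ) = Real.sqrt 4 := by
      rw [show (4 : ℝ) = 2 ^ 2 by norm_num, Real.sqrt_sq (by norm_num)]
    rw [h5, ← Real.sqrt_mul (by norm_num)]
    exact Real.sqrt_le_sqrt (by linarith)
  have hkk : Real.sqrt k * Real.sqrt k = k := Real.mul_self_sqrt hk0.le
  have hkey : Real.sqrt k / 2 ≤ k / Real.sqrt (k + 1) := by
    rw [div_le_div_iff₀ (by norm_num) hsn]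
    nlinarith
  have hRHS : (8 ^ (K + 2) : ℝ) ^ (-r) / DD r mp (K + 1) * (c * k)
      = (8 ^ K : ℝ) ^ (-r) * 64 ^ (-r) * c / (8 * mp.factorial * 4 ^ r)
        * (k / Real.sqrt (k + 1)) := by
    unfold DD
    have h5 : (8 ^ (K + 2) : ℝ) = 8 ^ K * 64 := by
      rw [pow_add]
      norm_num
    have h6 : ((K + 1 : ℕ) : ℝ) = k + 1 := by push_cast; rfl
    rw [h5, h6, Real.mul_rpow hP.le (by norm_num)]
    field_simp
  rw [hRHS]
  have step1 : (64 : ℝ) ^ (-r) * c / (16 * mp.factorial * 4 ^ r * A)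
      * (m : ℝ) ^ (-r) * (Real.log m) ^ (r + 1 / 2)
      ≤ (64 : ℝ) ^ (-r) * c / (16 * mp.factorial * 4 ^ r * A)
        * ((8 ^ K : ℝ) ^ (-r) * Real.sqrt k * A) := by
    rw [mul_assoc ((64 : ℝ) ^ (-r) * c / (16 * mp.factorial * 4 ^ r * A))]
    exact mul_le_mul_of_nonneg_left hprod (by positivity)
  refine step1.trans ?_
  have step2 : (64 : ℝ) ^ (-r) * c / (16 * mp.factorial * 4 ^ r * A)
        * ((8 ^ K : ℝ) ^ (-r) * Real.sqrt k * A)
      = (8 ^ K : ℝ) ^ (-r) * 64 ^ (-r) * c / (8 * mp.factorial * 4 ^ r)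
        * (Real.sqrt k / 2) := by
    field_simp
    norm_num
  rw [step2]
  exact mul_le_mul_of_nonneg_left hkey (by positivity)

/-- the lower bound in dimension two -/
theorem two (h : H98.CP.StCore) (r : ℝ) (hr : 0 < r) (mp : ℕ) (hmp : 1 ≤ mp) :
    ∃ c : ℝ, 0 < c ∧ ∀ᶠ m : ℕ in atTop, ∃ F P : C(T2, ℂ),
      (∀ x, (F x).im = 0) ∧ (∀ x, (P x).im = 0) ∧
      (∀ l, co F l = (∏ i, cr r (l i)) * co P l) ∧
      eLpNorm (fun x : T2 => (P x).re) (mp : ℝ≥0∞) volume ≤ 1 ∧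
      ∀ (L : Finset (Fin 2 → ℤ)) (d : (Fin 2 → ℤ) → ℂ) (U : ℝ), #L ≤ m →
        (∀ x, ‖F x - ∑ k ∈ L, d k * mFourier k x‖ ≤ U) →
        c * (m : ℝ) ^ (-r) * (Real.log m) ^ (r + 1 / 2) ≤ U := by
  classical
  obtain ⟨c0, hc0, K0, hcore⟩ := h
  set c : ℝ := min c0 1 with hcdef
  have hc : 0 < c := lt_min hc0 one_pos
  have hc1 : c ≤ 1 := min_le_right _ _
  have hcc : c ≤ c0 := min_le_left _ _
  have hfac : (0 : ℝ) < mp.factorial := by exact_mod_cast Nat.factorial_pos mp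
  refine ⟨(64 : ℝ) ^ (-r) * c / (16 * mp.factorial * 4 ^ r * ((16 / c) ^ r * 4 ^ (r + 1 / 2))),
    by positivity, ?_⟩
  filter_upwards [params2 c hc K0, eventually_gt_atTop 2] with m hm hm2
  obtain ⟨K, hK0, hK2, h3, h4⟩ := hm
  have hlog : 0 < Real.log m := Real.log_pos (by exact_mod_cast (by omega : 1 < m))
  have hK' : (0 : ℝ) ≤ K := Nat.cast_nonneg K
  set Bad : Finset (Fin (K + 1) → Finset (YK K)) := univ.filter (fun ε =>
    ∃ (Lf : Finset (Fin 2 → ℤ)) (d : (Fin 2 → ℤ) → ℂ), (Lf.card : ℝ) ≤ c * K * 8 ^ K ∧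
      ∀ x, ‖(TT K (K + 1) (aa K (ext ε)) - tp Lf d) x‖ ≤ c * K) with hBaddef
  have hBad : 4 * #Bad ≤ (2 ^ Fintype.card (YK K)) ^ (K + 1) := by
    have h5 := hcore K hK0
    have h6 : (2 ^ Fintype.card (YK K)) ^ (K + 1) = 2 ^ (8 ^ (K + 2) * (K + 1)) := by
      rw [Fintype.card_fin, ← pow_mul]
    rw [h6]
    refine le_trans (Nat.mul_le_mul_left 4 (Finset.card_le_card ?_)) h5
    intro ε hε
    rw [hBaddef, mem_filter] at hε
    obtain ⟨-, Lf, d, h7, h8⟩ := hε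
    rw [mem_filter]
    refine ⟨mem_univ _, Lf, d, ?_, fun x => (h8 x).trans ?_⟩
    · refine h7.trans ?_
      have : c * (K : ℝ) ≤ c0 * K := mul_le_mul_of_nonneg_right hcc hK'
      exact mul_le_mul_of_nonneg_right this (by positivity)
    · exact mul_le_mul_of_nonneg_right hcc hK'
  obtain ⟨F, P, hF, hP, hco, hnorm, hlow⟩ := construct2 r hr mp hmp K (c * K * 8 ^ K) (c * K) Bad hBad
    (fun ε hε L d hL hcon => hε (by
      rw [hBaddef, mem_filter]
      exact ⟨mem_univ _, L, d, hL, hcon⟩))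
  refine ⟨F, P, hF, hP, hco, hnorm, fun L d U hL hU => ?_⟩
  have h5 : (#L : ℝ) ≤ c * K * 8 ^ K := by
    have : (#L : ℝ) ≤ m := by exact_mod_cast hL
    linarith
  exact (compare2 r c hr hc hc1 mp m K hK2 hlog h3 h4).trans (hlow L d U h5 hU)

end

end Pool.Agent.H88.CP
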